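import Pool.Agent.Helper34.GurMain

/-!
Positive answer to Q1 of MP_63eeb0_an.

The space is the closed linear span in `l_∞(ω₁)` of vectors `e_α`, `α < ω₁`, given by a
transfinite triangular matrix: `e_α(β) = 0` for `β < α`, `e_α(α) = 1` and
`e_α(β) = ∑ s, a_β(s) e_α(s)` for `β > α`, where the rows `a_β` are finitely supported
rational vectors of `l_1`-norm at most one supported below `β`; a bookkeeping function ensures
that every such row appears cofinally often. The span of finitely many `e_α` is isometric to
`l_∞^n`, which together with the bookkeeping gives the Gurarii property.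
-/

namespace Pool.Agent.Results.MP_63eeb0_an.GurariiMonotoneBasis

open Pool.Agent.Helper34

/-- There is a (real) Banach space which is a Gurarii space of density `ℵ₁` and has a monotone
transfinite Schauder basis. -/
theorem result : ∃ (X : Type) (_ : NormedAddCommGroup X) (_ : NormedSpace ℝ X),
    CompleteSpace X ∧ IsGurarii X ∧ density X = Cardinal.aleph 1 ∧
      HasMonotoneTransfiniteBasis X :=
  ⟨Gur.GX, inferInstance, inferInstance, inferInstance, Gur.isGurarii_GX, Gur.density_GX,
    Gur.basis_GX⟩

end Pool.Agent.Results.MP_63eeb0_an.GurariiMonotoneBasis
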